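import Pool.Agent.Helper68.ES.St4

/-!
# Project ES, module DYS: dyadic sums
-/

set_option autoImplicit false

open MeasureTheory Set Filter Topology
open scoped ENNReal RealInnerProductSpace

namespace Pool.Agent.Helper99.ES

open Pool.Agent.Helper68.ES Pool.Agent.Helper68.EP Pool.Agent.Helper20.RG
open Pool.Agent.Helper20.RL (RQ Rich BM Fml Hit)
open Pool.Agent.Helper68.LM (Pl BB Bd Av HL ft fm DQ)

private theorem dyadic_DYS (L : ℕ → ℝ) (hm : ∀ n, L (n + 1) ≤ L n) (h0 : ∀ n, 0 ≤ L n) (V : ℕ) :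
    ∑ v ∈ Finset.range (V + 1), (2 : ℝ) ^ v * L (2 ^ v) ≤
      2 * ∑ i ∈ Finset.range (2 ^ V), L (i + 1) := by
  have ha : Antitone L := antitone_nat_of_succ_le hm
  induction V with
  | zero =>
    simp
    linarith [h0 1]
  | succ V ih =>
    rw [Finset.sum_range_succ]
    have e : Finset.range (2 ^ (V + 1)) = Finset.range (2 ^ V + 2 ^ V) := by
      congr 1
      ring
    have h1 : ∑ i ∈ Finset.range (2 ^ (V + 1)), L (i + 1)
        = ∑ i ∈ Finset.range (2 ^ V), L (i + 1)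
          + ∑ i ∈ Finset.range (2 ^ V), L (2 ^ V + i + 1) := by
      rw [e, Finset.sum_range_add]
    have h2 : (2 : ℝ) ^ V * L (2 ^ (V + 1)) ≤ ∑ i ∈ Finset.range (2 ^ V), L (2 ^ V + i + 1) := by
      have h3 : ∑ _i ∈ Finset.range (2 ^ V), L (2 ^ (V + 1)) = (2 : ℝ) ^ V * L (2 ^ (V + 1)) := by
        rw [Finset.sum_const, Finset.card_range, nsmul_eq_mul]
        push_cast
        ring
      rw [← h3]
      refine Finset.sum_le_sum fun i hi => ha ?_
      have := Finset.mem_range.1 hi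
      rw [pow_succ]
      omega
    rw [h1]
    have h4 : (2 : ℝ) ^ (V + 1) * L (2 ^ (V + 1)) = 2 * ((2 : ℝ) ^ V * L (2 ^ (V + 1))) := by ring
    rw [h4]
    linarith

private theorem card_DYS {p e : ℝ} (hp : 1 < p) {R Y β : ℤ} {W : Finset ℕ} {q i : ℕ → ℕ} {κ : ℕ}
    (h : ∀ w ∈ W, κ ≤ q w ∧ Cfg p e R Y β w (q w) (i w)) (v : ℕ) :
    (W.filter (fun w => q w - κ = v)).card ≤ ⌈1 / (p - 1)⌉₊ := by
  classical
  rcases (W.filter (fun w => q w - κ = v)).eq_empty_or_nonempty with h0 | h0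
  · rw [h0]
    simp
  · set S := W.filter (fun w => q w - κ = v) with hS
    have hmem := S.min'_mem h0
    set w₀ := S.min' h0 with hw₀
    have hval : ∀ w ∈ S, (⌊(p - 1) * (w : ℝ)⌋ : ℤ) = (v : ℤ) + κ - R := by
      intro w hw
      rw [hS, Finset.mem_filter] at hw
      obtain ⟨h1, h2⟩ := h w hw.1
      have h3 := h2.hq
      have h4 : q w = v + κ := by omega
      rw [h4] at h3
      push_cast at h3
      linarith
    have hsub : S ⊆ Finset.Ico w₀ (w₀ + ⌈1 / (p - 1)⌉₊) := by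
      intro w hw
      have hle : w₀ ≤ w := S.min'_le w hw
      rw [Finset.mem_Ico]
      refine ⟨hle, ?_⟩
      have h1 := hval w hw
      have h2 := hval w₀ hmem
      have h3 : (p - 1) * (w : ℝ) < (⌊(p - 1) * (w : ℝ)⌋ : ℝ) + 1 := Int.lt_floor_add_one _
      have h4 : (⌊(p - 1) * (w₀ : ℝ)⌋ : ℝ) ≤ (p - 1) * (w₀ : ℝ) := Int.floor_le _
      have h5 : (p - 1) * (w : ℝ) < (p - 1) * (w₀ : ℝ) + 1 := by
        rw [h1] at h3
        rw [h2] at h4
        linarith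
      have hp1 : 0 < p - 1 := by linarith
      have h6 : (w : ℝ) < w₀ + 1 / (p - 1) := by
        have h7 : (p - 1) * (w : ℝ) < (p - 1) * (w₀ + 1 / (p - 1)) := by
          rw [mul_add, mul_one_div, div_self hp1.ne']
          exact h5
        exact lt_of_mul_lt_mul_left h7 hp1.le
      have h8 : (w : ℝ) < ((w₀ + ⌈1 / (p - 1)⌉₊ : ℕ) : ℝ) := by
        push_cast
        linarith [Nat.le_ceil (1 / (p - 1))]
      exact_mod_cast h8
    calc S.card ≤ (Finset.Ico w₀ (w₀ + ⌈1 / (p - 1)⌉₊)).card := Finset.card_le_card hsub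
      _ = ⌈1 / (p - 1)⌉₊ := by rw [Nat.card_Ico]; omega

theorem hDYS : Pool.Agent.Helper68.ES.StDYS := by
  intro p hp
  have hp1 : 0 < p - 1 := by linarith
  have hN : 1 ≤ ⌈1 / (p - 1)⌉₊ := Nat.one_le_iff_ne_zero.2 (Nat.ceil_pos.2 (by positivity)).ne'
  refine ⟨2 * (⌈1 / (p - 1)⌉₊ : ℝ), ?_, ?_⟩
  · have : (1 : ℝ) ≤ (⌈1 / (p - 1)⌉₊ : ℝ) := by exact_mod_cast hN
    linarith
  intro P Δ e R Y β W q i θ κ hP hSy hW
  classical
  set L : ℕ → ℝ := fun n => Δ.ell θ n ^ p with hL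
  have hL0 : ∀ n, 0 ≤ L n := fun n => Real.rpow_nonneg (hSy.unit θ n).1 _
  have hLm : ∀ n, L (n + 1) ≤ L n := fun n =>
    Real.rpow_le_rpow (hSy.unit θ (n + 1)).1 (hSy.mono θ n) (by linarith)
  set f : ℕ → ℝ := fun v => (2 : ℝ) ^ v * L (2 ^ v) with hf
  have hf0 : ∀ v, 0 ≤ f v := fun v => mul_nonneg (by positivity) (hL0 _)
  have e1 : ∑ w ∈ W, (2 : ℝ) ^ (q w - κ) * Δ.ell θ (2 ^ (q w - κ)) ^ p
      = ∑ v ∈ W.image (fun w => q w - κ), (W.filter (fun w => q w - κ = v)).card • f v :=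
    Finset.sum_comp f (fun w => q w - κ)
  rw [e1]
  set V : ℕ := (W.image (fun w => q w - κ)).sup id with hV
  have hsub : W.image (fun w => q w - κ) ⊆ Finset.range (V + 1) := by
    intro v hv
    rw [Finset.mem_range]
    have : id v ≤ V := Finset.le_sup hv
    exact Nat.lt_succ_of_le this
  have hs := hSy.sum θ (2 ^ V)
  rw [hP] at hs
  calc ∑ v ∈ W.image (fun w => q w - κ), (W.filter (fun w => q w - κ = v)).card • f v
      ≤ ∑ v ∈ W.image (fun w => q w - κ), (⌈1 / (p - 1)⌉₊ : ℝ) * f v := by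
        refine Finset.sum_le_sum fun v _ => ?_
        rw [nsmul_eq_mul]
        refine mul_le_mul_of_nonneg_right ?_ (hf0 v)
        exact_mod_cast card_DYS hp hW v
    _ ≤ ∑ v ∈ Finset.range (V + 1), (⌈1 / (p - 1)⌉₊ : ℝ) * f v :=
        Finset.sum_le_sum_of_subset_of_nonneg hsub fun v _ _ =>
          mul_nonneg (Nat.cast_nonneg _) (hf0 v)
    _ = (⌈1 / (p - 1)⌉₊ : ℝ) * ∑ v ∈ Finset.range (V + 1), f v := by rw [Finset.mul_sum]
    _ ≤ (⌈1 / (p - 1)⌉₊ : ℝ) * (2 * ∑ i ∈ Finset.range (2 ^ V), L (i + 1)) :=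
        mul_le_mul_of_nonneg_left (dyadic_DYS L hLm hL0 V) (Nat.cast_nonneg _)
    _ ≤ (⌈1 / (p - 1)⌉₊ : ℝ) * (2 * P.A) :=
        mul_le_mul_of_nonneg_left (mul_le_mul_of_nonneg_left hs (by norm_num))
          (Nat.cast_nonneg _)
    _ = 2 * (⌈1 / (p - 1)⌉₊ : ℝ) * P.A := by ring

end Pool.Agent.Helper99.ES
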